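import Pool.Agent.AC215.Main
import Pool.Agent.TH993.AC.Closed

/-!
# Algebraically closed associative algebras exist

The definitions are those of `Pool.Agent.Results.MP_4b1745_al.OneVariable`:

* `FreeOver P R ℕ` is the free product `R * P⟨x_0, x_1, x_2, …⟩` of `P`-algebras, presented by
  generators and relations; `const P R ℕ` is the map from `R` to it and `lift`, `hom_ext'` are its
  universal property;
* `evalAt c : FreeOver P R ℕ →ₐ[P] R`, for `c : ℕ → R`, is the homomorphism that is the identity on
  `R` and sends `x_i` to `c i`;
* `AlgClosedIn P R ℕ` says that for each `f ∈ R * P⟨x_0, x_1, …⟩` which is not in `R` there is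
  `c : ℕ → R` with `evalAt c f = 0`.

The algebra is `R = U((ħ^ℚ))` (Hahn series with rational exponents) with the star product
`a ⋆ b = ∑ ħ^n / n! · d1^n a · d2^n b`, where `U` is a field of characteristic zero with two commuting
derivations in which each equation `G(u) = 0`, `G` a non-constant differential polynomial in one
unknown over `U`, has a solution, and `P = C((ħ^ℚ))`, `C` the field of constants of `U`.
-/

namespace Pool.Agent.Results.MP_4b1745_al.ExistsAlgClosed

open Pool.Agent.Results.MP_4b1745_al.OneVariable

/-- There are a field `P` and a nonzero associative `P`-algebra `R` (embedded in the free product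
`R * P⟨x_0, x_1, …⟩`) such that each equation `f = 0`, with `f ∈ R * P⟨x_0, x_1, …⟩` and `f ∉ R`, has a
solution in `R`. -/
theorem result : ∃ (P R : Type) (_ : Field P) (_ : Ring R) (_ : Algebra P R),
    Nontrivial R ∧ Function.Injective (const P R ℕ) ∧
      ∀ f : FreeOver P R ℕ, f ∉ Set.range (const P R ℕ) → ∃ c : ℕ → R, evalAt c f = 0 := by
  obtain ⟨U, _, _, hcl, ht⟩ := Pool.Agent.TH993.AC.exists_closed
  refine ⟨AC215.PF U, AC215.SR U, inferInstance, inferInstance, inferInstance, inferInstance, ?_,
    AC215.closed_all U hcl ht⟩
  intro a b h
  have := congrArg (evalAt (fun _ => 0)) h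
  rwa [evalAt, lift_const, lift_const] at this

end Pool.Agent.Results.MP_4b1745_al.ExistsAlgClosed
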